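import Mathlib
import Pool.Agent.CB.CIHeight
import Pool.Agent.CB.CIThm

/-!
# `N` forms of degree `d` without common zero in an ideal whose forms of degree `d` have none
-/

set_option autoImplicit false
set_option linter.all false

noncomputable section

namespace Pool.Agent.EGHV27

open Module MvPolynomial Pool.Agent.CB

variable {K : Type*} [Field K] {N : ℕ}

/-- the ideal of the origin has height at least `N` -/
lemma height_vars [IsAlgClosed K] {𝔭 : Ideal (MvPolynomial (Fin N) K)} (h𝔭 : 𝔭.IsPrime)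
    (hX : ∀ i : Fin N, (X i : MvPolynomial (Fin N) K) ∈ 𝔭) : (N : ℕ∞) ≤ 𝔭.height := by
  have hok : ∀ a ∈ List.ofFn (fun k : Fin N => ((1 : ℕ), (X k : MvPolynomial (Fin N) K))),
      okf a := by
    intro a ha
    obtain ⟨k, rfl⟩ := List.mem_ofFn.1 ha
    exact ⟨le_rfl, isHomogeneous_X K k⟩
  have h1 := (CI_of_NZ (List.ofFn fun k : Fin N => ((1 : ℕ), (X k : MvPolynomial (Fin N) K)))
    (by simp) hok (by
      intro x hx
      funext k
      have h2 := hx _ (List.mem_ofFn.2 ⟨k, rfl⟩)
      simpa using h2)).wr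
  have h2 := h1.ht 𝔭 h𝔭 (by
    refine IL_le fun a ha => ?_
    obtain ⟨k, rfl⟩ := List.mem_ofFn.1 ha
    exact hX k)
  simpa using h2

theorem exists_base_free [IsAlgClosed K] {I : Ideal (MvPolynomial (Fin N) K)} {d : ℕ}
    (hd : 1 ≤ d)
    (h : ∀ x : Fin N → K, (∀ f ∈ I, f.IsHomogeneous d → eval x f = 0) → x = 0) :
    ∃ u : Fin N → MvPolynomial (Fin N) K, (∀ k, u k ∈ I) ∧ (∀ k, (u k).IsHomogeneous d) ∧
      ∀ x : Fin N → K, (∀ k, eval x (u k) = 0) → x = 0 := by
  classical
  have hinf : Infinite K := IsAlgClosed.instInfinite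
  have H : ∀ r, r ≤ N → ∃ l : List (ℕ × MvPolynomial (Fin N) K), l.length = r ∧
      (∀ a ∈ l, a.1 = d ∧ a.2 ∈ I ∧ a.2.IsHomogeneous d) ∧ Ht l := by
    intro r
    induction r with
    | zero =>
      intro _
      refine ⟨[], rfl, ?_, ?_⟩
      · intro a ha
        exact absurd ha List.not_mem_nil
      · intro 𝔭 _ _
        simp
    | succ r ih =>
      intro hr
      obtain ⟨l, h1, h2, h3⟩ := ih (by omega)
      obtain ⟨f, hfI, hf, hf2⟩ := exists_avoid (J := I) (d := d)
        (Ideal.finite_minimalPrimes_of_isNoetherianRing _ (IL l)) (by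
          intro 𝔮 h𝔮
          by_contra hcon
          push Not at hcon
          have h𝔮p : 𝔮.IsPrime := h𝔮.1.1
          have hX : ∀ i : Fin N, (X i : MvPolynomial (Fin N) K) ∈ 𝔮 := by
            intro i
            rw [← h𝔮p.radical, ← MvPolynomial.vanishingIdeal_zeroLocus_eq_radical (K := K)]
            intro x hx
            have hx' : ∀ g ∈ 𝔮, aeval x g = 0 := hx
            have hx0 : x = 0 := by
              apply h
              intro g hg hgd
              have := hx' g (hcon g hg hgd)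
              rwa [aeval_eval_eq] at this
            simp [hx0]
          have h4 := height_vars h𝔮p hX
          have h5 := h4.trans (height_le_length h𝔮)
          rw [h1] at h5
          have h6 : N ≤ r := by exact_mod_cast h5
          omega)
      refine ⟨(d, f) :: l, by rw [List.length_cons, h1], ?_, Ht_cons h3 hf2⟩
      intro a ha
      rcases List.mem_cons.1 ha with rfl | ha
      · exact ⟨rfl, hfI, hf⟩
      · exact h2 a ha
  obtain ⟨l, h1, h2, h3⟩ := H N le_rfl
  let g : Fin N → ℕ × MvPolynomial (Fin N) K := fun k => l.get (Fin.cast h1.symm k)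
  have hg : ∀ k, g k ∈ l := fun k => List.get_mem l _
  refine ⟨fun k => (g k).2, fun k => (h2 _ (hg k)).2.1,
    fun k => (h2 _ (hg k)).2.2, fun x hx => ?_⟩
  refine NZ_of_Ht h1 (fun a ha => ⟨?_, ?_⟩) h3 x ?_
  · rw [(h2 a ha).1]; exact hd
  · rw [(h2 a ha).1]; exact (h2 a ha).2.2
  · intro a ha
    obtain ⟨k, rfl⟩ := List.get_of_mem ha
    exact hx (Fin.cast h1 k)

end Pool.Agent.EGHV27
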