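import Mathlib
import Pool.Agent.CB.CIBasic

/-!
# The Veronese substitution

`vs e` sends the variable with index `k` (a word of length `e` in the variables `x_1, …, x_c`) to
the corresponding monomial of degree `e`.
-/

set_option autoImplicit false
set_option linter.all false

noncomputable section

namespace Pool.Agent.EGHV27

open Module MvPolynomial Pool.Agent.CB

/-- number of words of length `e` in `c` letters -/
abbrev NW (e c : ℕ) : ℕ := Fintype.card (Fin e → Fin c)

/-- the numbering of the words -/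
def wd (e c : ℕ) : Fin (NW e c) ≃ (Fin e → Fin c) := (Fintype.equivFin _).symm

variable {K : Type*} [Field K] {c : ℕ}

/-- the monomial of a word -/
def mo (K : Type*) [Field K] {e c : ℕ} (w : Fin e → Fin c) : MvPolynomial (Fin c) K :=
  ∏ i, X (w i)

lemma mo_hom {e : ℕ} (w : Fin e → Fin c) : (mo K w).IsHomogeneous e := by
  have h := IsHomogeneous.prod (Finset.univ : Finset (Fin e))
    (fun i => (X (w i) : MvPolynomial (Fin c) K)) (fun _ => 1) (fun i _ => isHomogeneous_X K _)
  simpa [mo] using h

/-- the Veronese substitution -/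
def vs (K : Type*) [Field K] (e c : ℕ) :
    MvPolynomial (Fin (NW e c)) K →ₐ[K] MvPolynomial (Fin c) K :=
  aeval fun k => mo K (wd e c k)

lemma vs_X {e : ℕ} (w : Fin e → Fin c) : vs K e c (X ((wd e c).symm w)) = mo K w := by
  rw [vs, aeval_X, Equiv.apply_symm_apply]

lemma vs_hom {e i : ℕ} {p : MvPolynomial (Fin (NW e c)) K} (hp : p.IsHomogeneous i) :
    (vs K e c p).IsHomogeneous (e * i) :=
  hp.aeval _ fun k => mo_hom _

lemma span_mo (e : ℕ) : homogeneousSubmodule (Fin c) K e ≤
    Submodule.span K (Set.range fun w : Fin e → Fin c => mo K w) := by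
  induction e with
  | zero =>
    rw [← homogeneousSubmodule_one_pow, pow_zero, Submodule.one_eq_span, Submodule.span_le]
    rintro _ rfl
    exact Submodule.subset_span ⟨Fin.elim0, by simp [mo]⟩
  | succ e ih =>
    rw [← homogeneousSubmodule_one_pow, pow_succ, homogeneousSubmodule_one_pow]
    have h1 : homogeneousSubmodule (Fin c) K 1 ≤
        Submodule.span K (Set.range fun i : Fin c => (X i : MvPolynomial (Fin c) K)) := by
      rw [homogeneousSubmodule_one_eq_span_X]
    refine (mul_le_mul' ih h1).trans ?_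
    rw [Submodule.span_mul_span, Submodule.span_le]
    rintro _ ⟨_, ⟨w, rfl⟩, _, ⟨i, rfl⟩, rfl⟩
    refine Submodule.subset_span ⟨Fin.snoc w i, ?_⟩
    simp [mo, Fin.prod_univ_castSucc]

/-- every form of degree `e i` comes from a form of degree `i` -/
theorem exists_vs {e : ℕ} (i : ℕ) {f : MvPolynomial (Fin c) K} (hf : f.IsHomogeneous (e * i)) :
    ∃ p : MvPolynomial (Fin (NW e c)) K, p.IsHomogeneous i ∧ vs K e c p = f := by
  suffices H : homogeneousSubmodule (Fin c) K (e * i) ≤
      (homogeneousSubmodule (Fin (NW e c)) K i).map (vs K e c).toLinearMap by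
    obtain ⟨p, hp, hpf⟩ := H hf
    exact ⟨p, hp, hpf⟩
  have h1 : homogeneousSubmodule (Fin c) K e ≤
      (homogeneousSubmodule (Fin (NW e c)) K 1).map (vs K e c).toLinearMap := by
    refine (span_mo e).trans ?_
    rw [Submodule.span_le]
    rintro _ ⟨w, rfl⟩
    exact ⟨X ((wd e c).symm w), isHomogeneous_X K _, vs_X w⟩
  rw [← homogeneousSubmodule_one_pow, pow_mul, homogeneousSubmodule_one_pow]
  refine (pow_le_pow_left' h1 i).trans ?_
  have h2 := Submodule.map_pow (homogeneousSubmodule (Fin (NW e c)) K 1) (vs K e c) i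
  rw [homogeneousSubmodule_one_pow] at h2
  exact le_of_eq h2.symm

lemma vs_homComp {e : ℕ} (he : 1 ≤ e) (i : ℕ) (p : MvPolynomial (Fin (NW e c)) K) :
    vs K e c (homogeneousComponent i p) = homogeneousComponent (e * i) (vs K e c p) := by
  conv_rhs => rw [← sum_homogeneousComponent p, map_sum, map_sum]
  by_cases hi : i ∈ Finset.range (p.totalDegree + 1)
  · rw [Finset.sum_eq_single_of_mem i hi]
    · exact (homogeneousComponent_eq_self (vs_hom
        (homogeneousComponent_isHomogeneous i p))).symm
    · intro m _ hm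
      rw [homogeneousComponent_of_mem ((mem_homogeneousSubmodule _ _).2 (vs_hom
        (homogeneousComponent_isHomogeneous m p))), if_neg]
      intro h
      exact hm (Nat.eq_of_mul_eq_mul_left (by omega) h).symm
  · have h0 : homogeneousComponent i p = 0 := by
      apply homogeneousComponent_eq_zero
      simp only [Finset.mem_range, not_lt] at hi
      omega
    rw [h0, map_zero]
    symm
    refine Finset.sum_eq_zero fun m hm => ?_
    rw [homogeneousComponent_of_mem ((mem_homogeneousSubmodule _ _).2 (vs_hom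
        (homogeneousComponent_isHomogeneous m p))), if_neg]
    intro h
    have h2 : i = m := Nat.eq_of_mul_eq_mul_left (by omega) h
    subst h2
    exact hi hm

/-- the preimage of an ideal under the Veronese substitution -/
def cm {e : ℕ} (I : Ideal (MvPolynomial (Fin c) K)) : Ideal (MvPolynomial (Fin (NW e c)) K) :=
  I.comap (vs K e c : MvPolynomial (Fin (NW e c)) K →+* MvPolynomial (Fin c) K)

lemma mem_cm {e : ℕ} {I : Ideal (MvPolynomial (Fin c) K)} {p : MvPolynomial (Fin (NW e c)) K} :
    p ∈ cm I ↔ vs K e c p ∈ I := Iff.rfl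

lemma HI_cm {e : ℕ} (he : 1 ≤ e) {I : Ideal (MvPolynomial (Fin c) K)} (hI : HI I) :
    HI (cm (e := e) I) := by
  intro p hp n
  rw [mem_cm, vs_homComp he]
  exact hI _ hp _

theorem hd_cm {e : ℕ} (I : Ideal (MvPolynomial (Fin c) K)) (i : ℕ) :
    hd (cm (e := e) I) i = hd I (e * i) := by
  have h1 := finrank_map_add_inf_ker (vs K e c).toLinearMap (Jn (cm (e := e) I) i)
  have h2 := finrank_map_add_inf_ker (vs K e c).toLinearMap
    (homogeneousSubmodule (Fin (NW e c)) K i)
  have e1 : (Jn (cm (e := e) I) i).map (vs K e c).toLinearMap = Jn I (e * i) := by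
    apply le_antisymm
    · rintro _ ⟨p, ⟨hp, hp2⟩, rfl⟩
      exact ⟨hp, vs_hom hp2⟩
    · rintro f ⟨hf, hf2⟩
      obtain ⟨p, hp, rfl⟩ := exists_vs i (show f.IsHomogeneous (e * i) from hf2)
      exact ⟨p, ⟨hf, hp⟩, rfl⟩
  have e2 : (homogeneousSubmodule (Fin (NW e c)) K i).map (vs K e c).toLinearMap =
      homogeneousSubmodule (Fin c) K (e * i) := by
    apply le_antisymm
    · rintro _ ⟨p, hp, rfl⟩
      exact vs_hom hp
    · intro f hf
      obtain ⟨p, hp, rfl⟩ := exists_vs i (show f.IsHomogeneous (e * i) from hf)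
      exact ⟨p, hp, rfl⟩
  have e3 : (Jn (cm (e := e) I) i ⊓ LinearMap.ker (vs K e c).toLinearMap :
      Submodule K (MvPolynomial (Fin (NW e c)) K)) =
      homogeneousSubmodule (Fin (NW e c)) K i ⊓ LinearMap.ker (vs K e c).toLinearMap := by
    apply le_antisymm
    · exact inf_le_inf_right _ (Jn_le _ _)
    · rintro p ⟨hp, hp2⟩
      refine ⟨⟨?_, hp⟩, hp2⟩
      have h3 : vs K e c p = 0 := hp2
      change vs K e c p ∈ I
      rw [h3]
      exact I.zero_mem
  rw [e1, e3] at h1
  rw [e2] at h2
  have h3 := hd_add (cm (e := e) I) i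
  have h4 := hd_add I (e * i)
  omega

end Pool.Agent.EGHV27
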