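import Mathlib
import Pool.Agent.EGHV27.Ver

/-!
# Common zeros of the quadrics over an ideal with forms of degree `≤ 2 e` without common zero
-/

set_option autoImplicit false
set_option linter.all false

noncomputable section

namespace Pool.Agent.EGHV27

open Module MvPolynomial Pool.Agent.CB

variable {K : Type*} [Field K] {c : ℕ}

lemma mo_ne_zero {e : ℕ} (w : Fin e → Fin c) : mo K w ≠ 0 :=
  Finset.prod_ne_zero_iff.2 fun i _ => X_ne_zero _

lemma mo_update {e : ℕ} (w : Fin e → Fin c) (i : Fin e) (b : Fin c) :
    mo K (Function.update w i b) * X (w i) = mo K w * X b := by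
  classical
  have h1 : (fun j => (X (Function.update w i b j) : MvPolynomial (Fin c) K)) =
      Function.update (fun j => (X (w j) : MvPolynomial (Fin c) K)) i (X b) := by
    funext j
    by_cases hj : j = i
    · subst hj; simp
    · simp [Function.update_of_ne hj]
  have h2 : mo K (Function.update w i b) =
      X b * ∏ j ∈ Finset.univ \ {i}, (X (w j) : MvPolynomial (Fin c) K) := by
    rw [mo, h1, Finset.prod_update_of_mem (Finset.mem_univ i)]
  have h3 : mo K w = X (w i) * ∏ j ∈ Finset.univ \ {i}, (X (w j) : MvPolynomial (Fin c) K) := by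
    rw [mo, Finset.prod_eq_mul_prod_diff_singleton_of_mem (Finset.mem_univ i)]
  rw [h2, h3]
  ring

section

variable {e : ℕ} {J : Ideal (MvPolynomial (Fin c) K)} {y : Fin (NW e c) → K}
  (hy : ∀ p ∈ cm (e := e) J, p.IsHomogeneous 2 → eval y p = 0)

include hy

lemma pt_rel {w w' v v' : Fin e → Fin c} (h : mo K w * mo K w' = mo K v * mo K v') :
    y ((wd e c).symm w) * y ((wd e c).symm w') = y ((wd e c).symm v) * y ((wd e c).symm v') := by
  have h1 := hy (X ((wd e c).symm w) * X ((wd e c).symm w') -
    X ((wd e c).symm v) * X ((wd e c).symm v')) (by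
      rw [mem_cm, map_sub, map_mul, map_mul, vs_X, vs_X, vs_X, vs_X, h, sub_self]
      exact J.zero_mem) (by
      have h2 : ∀ a b : Fin (NW e c), (X a * X b : MvPolynomial (Fin (NW e c)) K).IsHomogeneous 2 :=
        fun a b => (isHomogeneous_X K a).mul (isHomogeneous_X K b)
      exact (h2 _ _).sub (h2 _ _))
  simp only [map_sub, map_mul, eval_X] at h1
  exact sub_eq_zero.1 h1

lemma pt_const (he : 1 ≤ e) (h0 : y ≠ 0) :
    ∃ a : Fin c, y ((wd e c).symm fun _ => a) ≠ 0 := by
  classical
  obtain ⟨k, hk⟩ : ∃ k, y k ≠ 0 := by
    by_contra hcon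
    push Not at hcon
    exact h0 (funext hcon)
  let w0 := wd e c k
  have hw0 : y ((wd e c).symm w0) ≠ 0 := by
    simp only [w0, Equiv.symm_apply_apply]
    exact hk
  let S : Finset (Fin c × (Fin e → Fin c)) :=
    Finset.univ.filter fun q => y ((wd e c).symm q.2) ≠ 0
  have hS : S.Nonempty := ⟨(w0 ⟨0, he⟩, w0), by simp [S, hw0]⟩
  obtain ⟨⟨a, w⟩, hq, hmax⟩ := Finset.exists_max_image S
    (fun q => (Finset.univ.filter fun i => q.2 i = q.1).card) hS
  have hw : y ((wd e c).symm w) ≠ 0 := (Finset.mem_filter.1 hq).2
  by_cases hall : ∀ i, w i = a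
  · refine ⟨a, ?_⟩
    have : w = fun _ => a := funext hall
    rwa [this] at hw
  exfalso
  push Not at hall
  obtain ⟨i, hi⟩ := hall
  obtain ⟨j, hj⟩ : ∃ j, w j = a := by
    by_contra hcon
    push Not at hcon
    have h1 := hmax (w ⟨0, he⟩, w) (by simp [S, hw])
    have h2 : (Finset.univ.filter fun i => w i = a).card = 0 := by
      rw [Finset.card_eq_zero, Finset.filter_eq_empty_iff]
      intro x _
      exact hcon x
    have h3 : 0 < (Finset.univ.filter fun i => w i = w ⟨0, he⟩).card :=
      Finset.card_pos.2 ⟨⟨0, he⟩, by simp⟩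
    simp only at h1
    omega
  have hrel : mo K w * mo K w = mo K (Function.update w i a) * mo K (Function.update w j (w i)) := by
    have h1 := mo_update (K := K) w i a
    have h2 := mo_update (K := K) w j (w i)
    rw [hj] at h2
    have h3 : (X a * X (w i) : MvPolynomial (Fin c) K) ≠ 0 := mul_ne_zero (X_ne_zero _) (X_ne_zero _)
    apply mul_right_cancel₀ h3
    calc mo K w * mo K w * (X a * X (w i))
        = (mo K w * X a) * (mo K w * X (w i)) := by ring
      _ = (mo K (Function.update w i a) * X (w i)) *
          (mo K (Function.update w j (w i)) * X a) := by rw [h1, h2]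
      _ = _ := by ring
  have h4 := pt_rel hy hrel
  have h5 : y ((wd e c).symm (Function.update w i a)) ≠ 0 := by
    intro h6
    rw [h6, zero_mul] at h4
    exact mul_ne_zero hw hw h4
  have h6 := hmax (a, Function.update w i a) (by simp [S, h5])
  simp only at h6
  have h7 : (Finset.univ.filter fun k => w k = a) ⊂
      (Finset.univ.filter fun k => Function.update w i a k = a) := by
    rw [Finset.ssubset_iff_of_subset]
    · refine ⟨i, by simp, ?_⟩
      simp [hi]
    · intro k hk
      simp only [Finset.mem_filter, Finset.mem_univ, true_and] at hk ⊢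
      by_cases hki : k = i
      · subst hki; simp
      · rw [Function.update_of_ne hki]; exact hk
  have h8 := Finset.card_lt_card h7
  omega

/-- the point is a multiple of the Veronese image of a point -/
lemma pt_ver (he : 1 ≤ e) {a : Fin c} (ha : y ((wd e c).symm fun _ => a) ≠ 0) :
    ∃ x : Fin c → K, x a = 1 ∧ ∀ w : Fin e → Fin c,
      y ((wd e c).symm w) = y ((wd e c).symm fun _ => a) * ∏ i, x (w i) := by
  classical
  let Y : (Fin e → Fin c) → K := fun w => y ((wd e c).symm w)
  let ca : Fin e → Fin c := fun _ => a
  have hca : Y ca ≠ 0 := ha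
  let i0 : Fin e := ⟨0, he⟩
  let x : Fin c → K := fun b => Y (Function.update ca i0 b) / Y ca
  have hxa : x a = 1 := by
    have h1 : Function.update ca i0 a = ca := by
      funext j
      by_cases hj : j = i0
      · subst hj; simp [ca]
      · rw [Function.update_of_ne hj]
    simp only [x, h1]
    exact div_self hca
  refine ⟨x, hxa, ?_⟩
  have key : ∀ (w : Fin e → Fin c) (s : Finset (Fin e)),
      Y (fun i => if i ∈ s then w i else a) = Y ca * ∏ i ∈ s, x (w i) := by
    intro w s
    induction s using Finset.induction_on with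
    | empty => simp [ca]
    | insert j s hj ih =>
      rw [Finset.prod_insert hj]
      set v : Fin e → Fin c := fun i => if i ∈ s then w i else a with hv
      have h1 : (fun i => if i ∈ insert j s then w i else a) = Function.update v j (w j) := by
        funext i
        by_cases hi : i = j
        · subst hi; simp
        · rw [Function.update_of_ne hi]
          simp [hv, hi]
      rw [h1]
      have hvj : v j = a := by simp [hv, hj]
      have hrel : mo K (Function.update v j (w j)) * mo K ca =
          mo K v * mo K (Function.update ca i0 (w j)) := by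
        have h2 := mo_update (K := K) v j (w j)
        have h3 := mo_update (K := K) ca i0 (w j)
        rw [hvj] at h2
        have h3' : mo K (Function.update ca i0 (w j)) * X a = mo K ca * X (w j) := h3
        have h4 : (X a : MvPolynomial (Fin c) K) ≠ 0 := X_ne_zero _
        apply mul_right_cancel₀ h4
        calc mo K (Function.update v j (w j)) * mo K ca * X a
            = (mo K (Function.update v j (w j)) * X a) * mo K ca := by ring
          _ = mo K v * (mo K ca * X (w j)) := by rw [h2]; ring
          _ = mo K v * mo K (Function.update ca i0 (w j)) * X a := by rw [← h3']; ring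
      have h5 : Y (Function.update v j (w j)) * Y ca = Y v * Y (Function.update ca i0 (w j)) :=
        pt_rel hy hrel
      have h6 : Y (Function.update ca i0 (w j)) = x (w j) * Y ca := by
        simp only [x]
        rw [div_mul_cancel₀ _ hca]
      apply mul_right_cancel₀ hca
      rw [h5, h6, ih]
      ring
  intro w
  have h1 := key w Finset.univ
  simp only [Finset.mem_univ, if_true] at h1
  exact h1

end

theorem point {e : ℕ} (he : 1 ≤ e) {J : Ideal (MvPolynomial (Fin c) K)}
    (hnz : ∀ x : Fin c → K, (∀ d ≤ 2 * e, ∀ f ∈ J, f.IsHomogeneous d → eval x f = 0) → x = 0)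
    (y : Fin (NW e c) → K)
    (hy : ∀ p ∈ cm (e := e) J, p.IsHomogeneous 2 → eval y p = 0) : y = 0 := by
  classical
  by_contra h0
  obtain ⟨a, ha⟩ := pt_const hy he h0
  obtain ⟨x, hxa, hx⟩ := pt_ver hy he ha
  set b := y ((wd e c).symm fun _ => a) with hb
  -- evaluation at `y` of a quadric is a multiple of the evaluation at `x`
  have hyx : ∀ k, y k = b * ∏ i, x (wd e c k i) := by
    intro k
    have := hx (wd e c k)
    rwa [Equiv.symm_apply_apply] at this
  have hev : ∀ p : MvPolynomial (Fin (NW e c)) K, p.IsHomogeneous 2 →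
      eval y p = b ^ 2 * eval x (vs K e c p) := by
    intro p hp
    have h1 : y = fun k => b * (∏ i, x (wd e c k i)) := funext hyx
    rw [h1, eval_smul_hom hp]
    congr 1
    have h2 : (eval x : MvPolynomial (Fin c) K →+* K).comp
        (vs K e c : MvPolynomial (Fin (NW e c)) K →+* MvPolynomial (Fin c) K) =
        (eval (fun k => ∏ i, x (wd e c k i)) : MvPolynomial (Fin (NW e c)) K →+* K) := by
      apply MvPolynomial.ringHom_ext
      · intro r
        simp [vs]
      · intro k
        simp [vs, mo]
    exact (congrArg (fun g : MvPolynomial (Fin (NW e c)) K →+* K => g p) h2).symm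
  have hF : ∀ F ∈ J, F.IsHomogeneous (2 * e) → eval x F = 0 := by
    intro F hF hFh
    rw [mul_comm] at hFh
    obtain ⟨p, hp, rfl⟩ := exists_vs 2 hFh
    have h1 := hy p hF hp
    rw [hev p hp] at h1
    exact (mul_eq_zero.1 h1).resolve_left (pow_ne_zero 2 ha)
  have hx0 : x = 0 := by
    apply hnz
    intro d hd f hf hfd
    have h1 := hF (X a ^ (2 * e - d) * f) (J.mul_mem_left _ hf) (by
      have h2 := ((isHomogeneous_X K a).pow (2 * e - d)).mul hfd
      rwa [one_mul, Nat.sub_add_cancel hd] at h2)
    simpa [hxa] using h1
  rw [hx0] at hxa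
  exact zero_ne_one hxa

end Pool.Agent.EGHV27
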