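import Mathlib
import Pool.Agent.EGHV27.Point
import Pool.Agent.EGHV27.Base
import Pool.Agent.EGH51.Core

/-!
# The Hilbert function along a residue class is a sum of face numbers of simplicial complexes
-/

set_option autoImplicit false
set_option linter.all false

noncomputable section

namespace Pool.Agent.EGHV27

open Module MvPolynomial Pool.Agent.CB

universe v

variable {K : Type v} [Field K] {c : ℕ}

lemma mem_of_low {J : Ideal (MvPolynomial (Fin c) K)} {r : ℕ}
    (h : ∀ x : MvPolynomial (Fin c) K, x.IsHomogeneous r → x ∈ J) (a : ℕ)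
    {x : MvPolynomial (Fin c) K} (hx : x.IsHomogeneous (a + r)) : x ∈ J := by
  have h1 : homogeneousSubmodule (Fin c) K (a + r) ≤ Submodule.restrictScalars K J := by
    rw [← homogeneousSubmodule_one_pow, pow_add, homogeneousSubmodule_one_pow,
      homogeneousSubmodule_one_pow, Submodule.mul_le]
    intro u _ w hw
    exact J.mul_mem_left u (h w hw)
  exact h1 hx

lemma hd_low_zero {J : Ideal (MvPolynomial (Fin c) K)} {r : ℕ} (h : hd J r = 0) (a : ℕ) :
    hd J (a + r) = 0 := by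
  rw [hd_eq_zero_iff] at h ⊢
  exact fun x hx => mem_of_low h a hx

lemma hd_zero_one {J : Ideal (MvPolynomial (Fin c) K)} (h : (1 : MvPolynomial (Fin c) K) ∉ J) :
    hd J 0 = 1 := by
  have h1 : hd J 0 ≠ 0 := by
    intro h0
    rw [hd_eq_zero_iff] at h0
    exact h (h0 1 (isHomogeneous_one _ _))
  have h2 := hd_add J 0
  rw [finrank_S0] at h2
  omega

/-- base point freeness in degrees `≤ 2 e` -/
def BF (e : ℕ) (J : Ideal (MvPolynomial (Fin c) K)) : Prop :=
  ∀ x : Fin c → K, (∀ d ≤ 2 * e, ∀ f ∈ J, f.IsHomogeneous d → eval x f = 0) → x = 0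

lemma BF.mono {e : ℕ} {J J' : Ideal (MvPolynomial (Fin c) K)} (h : BF e J) (hJ : J ≤ J') :
    BF e J' := fun x hx => h x fun d hd f hf hfd => hx d hd f (hJ hf) hfd

theorem one_complex [IsAlgClosed K] {e : ℕ} (he : 1 ≤ e) {J : Ideal (MvPolynomial (Fin c) K)}
    (hJ : HI J) (hnz : BF e J) :
    ∃ Δ : Finset (Finset (Fin (NW e c))), (∀ U ∈ Δ, ∀ V, V ⊆ U → V ∈ Δ) ∧
      ∀ i, (Δ.filter (fun U => U.card = i)).card = hd J (e * i) := by
  obtain ⟨u, hu1, hu2, hu3⟩ := exists_base_free (I := cm (e := e) J) (d := 2) (by norm_num)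
    (fun y hy => point he hnz y hy)
  obtain ⟨Δ, h1, h2⟩ := Pool.Agent.EGH51.core u hu2 hu3 (HI_cm he hJ) hu1
  exact ⟨Δ, h1, fun i => by rw [h2, hd_cm]⟩

theorem fam [IsAlgClosed K] {e : ℕ} (he : 1 ≤ e) (r : ℕ) (s : ℕ) :
    ∀ J : Ideal (MvPolynomial (Fin c) K), HI J → BF e J → hd J r = s →
    ∃ Δ : Fin s → Finset (Finset (Fin (NW e c))),
      (∀ k, ∅ ∈ Δ k ∧ ∀ U ∈ Δ k, ∀ V, V ⊆ U → V ∈ Δ k) ∧
      ∀ i, hd J (e * i + r) = ∑ k, ((Δ k).filter (fun U => U.card = i)).card := by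
  classical
  induction s with
  | zero =>
    intro J hJ hnz h0
    refine ⟨fun k => k.elim0, fun k => k.elim0, fun i => ?_⟩
    rw [hd_low_zero h0]
    simp
  | succ s ih =>
    intro J hJ hnz hs
    obtain ⟨g, hg, hgJ⟩ : ∃ g : MvPolynomial (Fin c) K, g.IsHomogeneous r ∧ g ∉ J := by
      by_contra hcon
      push Not at hcon
      have := hd_eq_zero_iff.2 hcon
      omega
    have hcol : ∀ j, hd (col J g) j + hd (J ⊔ Ideal.span {g}) (j + r) = hd J (j + r) :=
      fun j => hd_col hJ hg j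
    have h1 : hd (col J g) 0 = 1 := by
      apply hd_zero_one
      rw [mem_col, mul_one]
      exact hgJ
    have h2 : hd (J ⊔ Ideal.span {g}) r = s := by
      have := hcol 0
      rw [zero_add] at this
      omega
    obtain ⟨Δ', h3, h4⟩ := ih (J ⊔ Ideal.span {g}) (HI_sup hJ (HI_span hg))
      (hnz.mono le_sup_left) h2
    obtain ⟨Δ₀, h5, h6⟩ := one_complex he (HI_col hJ hg) (hnz.mono (le_col J g))
    have h7 : ∅ ∈ Δ₀ := by
      have h8 := h6 0
      rw [mul_zero, h1] at h8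
      have h9 : 0 < (Δ₀.filter (fun U => U.card = 0)).card := by omega
      obtain ⟨U, hU⟩ := Finset.card_pos.1 h9
      rw [Finset.mem_filter, Finset.card_eq_zero] at hU
      rw [← hU.2]
      exact hU.1
    refine ⟨Fin.cons Δ₀ Δ', ?_, ?_⟩
    · intro k
      refine Fin.cases ?_ (fun k => ?_) k
      · rw [Fin.cons_zero]
        exact ⟨h7, h5⟩
      · rw [Fin.cons_succ]
        exact h3 k
    · intro i
      rw [← hcol (e * i), h4 i, ← h6 i, Fin.sum_univ_succ]
      simp only [Fin.cons_zero, Fin.cons_succ]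

end Pool.Agent.EGHV27
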