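import Mathlib
import Pool.Agent.EGHV27.Fam
import Pool.Agent.EGH51.ArtRed
import Pool.Agent.EGH51.BaseC

/-!
# Zero-dimensional subschemes of intersections of hypersurfaces of degree `≤ 2 e`
-/

set_option autoImplicit false
set_option linter.all false

noncomputable section

namespace Pool.Agent.EGHV27

open Module MvPolynomial Pool.Agent.CB Pool.Agent.EGH51

universe v

/-- the Artinian reduction -/
theorem art (K : Type v) [Field K] [IsAlgClosed K] (c n e : ℕ) (d : ℕ → ℕ)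
    (F : ℕ → MvPolynomial (Fin (c+1)) K)
    (hd2 : ∀ i ∈ Finset.Icc 1 n, d i ≤ 2 * e)
    (hF : ∀ i ∈ Finset.Icc 1 n, (F i).IsHomogeneous (d i))
    (hfin : ∀ j : Fin (c+1), Set.Finite {x : Fin (c+1) → K |
        x j = 1 ∧ ∀ i ∈ Finset.Icc 1 n, MvPolynomial.eval x (F i) = 0})
    (J : Ideal (MvPolynomial (Fin (c+1)) K)) (hJh : HI J)
    (hsat : ∀ f : MvPolynomial (Fin (c+1)) K,
        (∃ N : ℕ, ∀ i : Fin (c+1), MvPolynomial.X i ^ N * f ∈ J) → f ∈ J)
    (hFJ : ∀ i ∈ Finset.Icc 1 n, F i ∈ J) :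
    ∃ J' : Ideal (MvPolynomial (Fin c) K), HI J' ∧ BF e J' ∧ hd J' 0 = hd J 0 ∧
      ∀ k, hd J' (k + 1) + hd J k = hd J (k + 1) := by
  classical
  by_cases hJ1 : (1 : MvPolynomial (Fin (c+1)) K) ∈ J
  · have h0 : ∀ k, hd J k = 0 := by
      intro k
      rw [hd_eq_zero_iff]
      intro f _
      have := J.mul_mem_left f hJ1
      rwa [mul_one] at this
    have h1 : ∀ k, hd (⊤ : Ideal (MvPolynomial (Fin c) K)) k = 0 := by
      intro k
      rw [hd_eq_zero_iff]
      intro f _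
      trivial
    refine ⟨⊤, fun _ _ _ => trivial, ?_, by rw [h0, h1], fun k => by rw [h0, h0, h1]⟩
    intro x hx
    exfalso
    have := hx 0 (Nat.zero_le _) 1 trivial (isHomogeneous_one _ _)
    rw [map_one] at this
    exact one_ne_zero this
  have hinf : Infinite K := IsAlgClosed.instInfinite
  let Z : Set (Fin (c+1) → K) := ⋃ j : Fin (c+1), {x : Fin (c+1) → K |
        x j = 1 ∧ ∀ i ∈ Finset.Icc 1 n, MvPolynomial.eval x (F i) = 0}
  have hZ : Z.Finite := Set.finite_iUnion hfin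
  have hZ0 : ∀ x ∈ Z, x ≠ 0 := by
    intro x hx h0
    obtain ⟨j, hj⟩ := Set.mem_iUnion.1 hx
    have := hj.1
    rw [h0] at this
    simp at this
  obtain ⟨a, ha⟩ := exists_lf Z hZ hZ0
  have hlh : (lf a).IsHomogeneous 1 := lf_hom a
  have hnz : ∀ x : Fin (c+1) → K, (∀ i ∈ Finset.Icc 1 n, eval x (F i) = 0) →
      eval x (lf a) = 0 → x = 0 := by
    intro x hx hxl
    by_contra hx0
    obtain ⟨j, hj⟩ : ∃ j, x j ≠ 0 := by
      by_contra hcon
      push Not at hcon
      exact hx0 (funext hcon)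
    have hy : (fun i => (x j)⁻¹ * x i) ∈ Z := by
      refine Set.mem_iUnion.2 ⟨j, inv_mul_cancel₀ hj, fun i hi => ?_⟩
      rw [eval_smul_hom (hF i hi), hx i hi, mul_zero]
    apply ha _ hy
    rw [eval_smul_hom hlh, hxl, mul_zero]
  have hl0 : lf a ≠ 0 := by
    intro h0
    apply hJ1
    have hX : ∀ i : Fin (c+1), (X i : MvPolynomial (Fin (c+1)) K) ∈ J.radical := by
      intro i
      rw [← MvPolynomial.vanishingIdeal_zeroLocus_eq_radical (K := K)]
      intro x hx
      have hx' : ∀ g ∈ J, aeval x g = 0 := hx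
      have hx0 : x = 0 := by
        apply hnz
        · intro i hi
          have := hx' _ (hFJ i hi)
          rwa [aeval_eval_eq] at this
        · rw [h0, map_zero]
      simp [hx0]
    apply hsat
    choose m hm using hX
    refine ⟨Finset.univ.sup m, fun i => ?_⟩
    have h3 : m i ≤ Finset.univ.sup m := Finset.le_sup (Finset.mem_univ i)
    rw [mul_one, ← Nat.sub_add_cancel h3, pow_add]
    exact J.mul_mem_left _ (hm i)
  have hreg : NZD J (lf a) := by
    refine regular_of_no_zero J hsat (lf a) fun x hx hxl => ?_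
    exact hnz x (fun i hi => hx _ (hFJ i hi)) hxl
  obtain ⟨j, hj⟩ : ∃ j, a j ≠ 0 := by
    by_contra hcon
    push Not at hcon
    apply hl0
    simp [lf, hcon]
  refine ⟨(J ⊔ Ideal.span {lf a}).map (rho a j), HI_map_rho a j (HI_sup hJh (HI_span hlh)), ?_,
    hd_res_zero a j hj hJh, fun k => hd_res a j hj hJh hreg k⟩
  intro x hx
  have hx1 : ∀ i ∈ Finset.Icc 1 n, eval x (rho a j (F i)) = 0 := by
    intro i hi
    exact hx (d i) (hd2 i hi) _ (Ideal.mem_map_of_mem _ (Ideal.mem_sup_left (hFJ i hi)))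
      (rho_hom a j (hF i hi))
  let y : Fin (c+1) → K := fun i => eval x (rho a j (X i))
  have hy : ∀ f, eval x (rho a j f) = eval y f := by
    intro f
    have : ((eval x : MvPolynomial (Fin c) K →+* K).comp
        (rho a j : MvPolynomial (Fin (c+1)) K →+* MvPolynomial (Fin c) K)) =
        (eval y : MvPolynomial (Fin (c+1)) K →+* K) := by
      apply MvPolynomial.ringHom_ext
      · intro b
        simp [y, rho]
      · intro i
        simp [y]
    exact congrArg (fun k : MvPolynomial (Fin (c+1)) K →+* K => k f) this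
  have hy0 : y = 0 := by
    apply hnz
    · intro i hi
      rw [← hy]
      exact hx1 i hi
    · rw [← hy, rho_lf a j hj, map_zero]
  funext i
  have h1 : y (j.succAbove i) = x i := by
    change eval x (rho a j (X (j.succAbove i))) = x i
    rw [rho_X_succ, eval_X]
  rw [← h1, hy0]
  rfl

/-- the first difference of the Hilbert function as Hilbert function of an Artinian quotient -/
theorem art_any (K : Type v) [Field K] (c n e : ℕ) (d : ℕ → ℕ)
    (F : ℕ → MvPolynomial (Fin (c+1)) K)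
    (hd2 : ∀ i ∈ Finset.Icc 1 n, d i ≤ 2 * e)
    (hF : ∀ i ∈ Finset.Icc 1 n, (F i).IsHomogeneous (d i))
    (hfin : ∀ j : Fin (c+1), Set.Finite {x : Fin (c+1) → AlgebraicClosure K |
        x j = 1 ∧ ∀ i ∈ Finset.Icc 1 n, MvPolynomial.aeval x (F i) = 0})
    (J : Ideal (MvPolynomial (Fin (c+1)) K)) (hJh : HI J)
    (hsat : ∀ f : MvPolynomial (Fin (c+1)) K,
        (∃ N : ℕ, ∀ i : Fin (c+1), MvPolynomial.X i ^ N * f ∈ J) → f ∈ J)
    (hFJ : ∀ i ∈ Finset.Icc 1 n, F i ∈ J) :
    ∃ J' : Ideal (MvPolynomial (Fin c) (AlgebraicClosure K)), HI J' ∧ BF e J' ∧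
      hd J' 0 = hd J 0 ∧ ∀ k, hd J' (k + 1) + hd J k = hd J (k + 1) := by
  have he : ∀ (x : Fin (c+1) → AlgebraicClosure K) (f : MvPolynomial (Fin (c+1)) K),
      eval x (ext K (AlgebraicClosure K) (c+1) f) = aeval x f := by
    intro x f
    rw [eval_map, aeval_def]
  obtain ⟨J', h1, h2, h3, h4⟩ := art (AlgebraicClosure K) c n e d
    (fun i => ext K (AlgebraicClosure K) (c+1) (F i)) hd2 (fun i hi => (hF i hi).map _) (by
      intro j
      simp only [he]
      exact hfin j) (J.map (ext K (AlgebraicClosure K) (c+1))) (HI_ext hJh) (sat_ext hsat)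
      (fun i hi => Ideal.mem_map_of_mem _ (hFJ i hi))
  refine ⟨J', h1, h2, ?_, fun k => ?_⟩
  · rw [h3, hd_ext hJh]
  · have h5 := h4 k
    rwa [hd_ext hJh, hd_ext hJh] at h5

/-- sum over a block decomposition -/
lemma sum_blocks (g : ℕ → ℕ) (e M : ℕ) :
    ∑ n ∈ Finset.range (e * M), g n = ∑ r ∈ Finset.range e, ∑ i ∈ Finset.range M, g (e * i + r) := by
  induction M with
  | zero => simp
  | succ M ih =>
    rw [Nat.mul_succ, Finset.sum_range_add, ih, ← Finset.sum_add_distrib]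
    refine Finset.sum_congr rfl fun r _ => ?_
    rw [Finset.sum_range_succ]

/-- a family of complexes one of which has a face of size `t` -/
lemma two_pow_le {s N : ℕ} (Δ : Fin s → Finset (Finset (Fin N)))
    (hΔ : ∀ k, ∅ ∈ Δ k ∧ ∀ U ∈ Δ k, ∀ V, V ⊆ U → V ∈ Δ k) {t M : ℕ} (hM : N < M)
    (ht : ∑ k, ((Δ k).filter (fun U => U.card = t)).card ≠ 0) :
    2 ^ t ≤ ∑ i ∈ Finset.range M, ∑ k, ((Δ k).filter (fun U => U.card = i)).card := by
  classical
  obtain ⟨k, -, hk⟩ := Finset.exists_ne_zero_of_sum_ne_zero ht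
  obtain ⟨U, hU⟩ := Finset.card_ne_zero.1 hk
  rw [Finset.mem_filter] at hU
  have h1 : U.powerset ⊆ Δ k := by
    intro W hW
    rw [Finset.mem_powerset] at hW
    exact (hΔ k).2 U hU.1 W hW
  have h2 := Finset.card_le_card h1
  rw [Finset.card_powerset, hU.2] at h2
  rw [Finset.sum_comm]
  have h3 : (Δ k).card = ∑ i ∈ Finset.range M, ((Δ k).filter (fun U => U.card = i)).card := by
    rw [← Finset.card_eq_sum_card_fiberwise]
    intro V _
    have := Finset.card_le_univ V
    rw [Fintype.card_fin] at this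
    simp only [Finset.coe_range, Set.mem_Iio]
    omega
  rw [h3] at h2
  exact h2.trans (Finset.single_le_sum
    (f := fun k => ∑ i ∈ Finset.range M, ((Δ k).filter (fun U => U.card = i)).card)
    (fun _ _ => Nat.zero_le _) (Finset.mem_univ k))

theorem main (K : Type v) [Field K] (c n e : ℕ) (he : 1 ≤ e) (d : ℕ → ℕ)
    (F : ℕ → MvPolynomial (Fin (c+1)) K)
    (hd2 : ∀ i ∈ Finset.Icc 1 n, d i ≤ 2 * e)
    (hF : ∀ i ∈ Finset.Icc 1 n, (F i).IsHomogeneous (d i))
    (hfin : ∀ j : Fin (c+1), Set.Finite {x : Fin (c+1) → AlgebraicClosure K |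
        x j = 1 ∧ ∀ i ∈ Finset.Icc 1 n, MvPolynomial.aeval x (F i) = 0})
    (J : Ideal (MvPolynomial (Fin (c+1)) K)) (hJh : HI J)
    (hsat : ∀ f : MvPolynomial (Fin (c+1)) K,
        (∃ N : ℕ, ∀ i : Fin (c+1), MvPolynomial.X i ^ N * f ∈ J) → f ∈ J)
    (hFJ : ∀ i ∈ Finset.Icc 1 n, F i ∈ J)
    (h : ℕ → ℕ) (hh : ∀ k, h k = hd J k) :
    (∀ r : ℕ, ∃ (s N : ℕ) (Δ : Fin s → Finset (Finset (Fin N))),
      (∀ k, ∅ ∈ Δ k ∧ ∀ U ∈ Δ k, ∀ V, V ⊆ U → V ∈ Δ k) ∧
      ∀ i, h (e * i + r) = (if e * i + r = 0 then 0 else h (e * i + r - 1)) +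
        ∑ k, ((Δ k).filter (fun U => U.card = i)).card) ∧
    ∀ D : ℕ, (∃ N : ℕ, ∀ k ≥ N, h k = D) → ∀ m : ℕ, h m < D →
      ∑ r ∈ (Finset.range e).filter (fun r => r ≤ m + 1), 2 ^ ((m + 1 - r) / e) ≤ D := by
  classical
  obtain ⟨J', h1, h2, h3, h4⟩ := art_any K c n e d F hd2 hF hfin J hJh hsat hFJ
  have hdiff : ∀ k, h k = (if k = 0 then 0 else h (k - 1)) + hd J' k := by
    intro k
    cases k with
    | zero => simp only [if_pos, zero_add]; rw [hh, h3]
    | succ k =>
      rw [if_neg (Nat.succ_ne_zero k), Nat.add_sub_cancel, hh, hh, ← h4 k, add_comm]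
  have hsum : ∀ k, h k = ∑ i ∈ Finset.range (k + 1), hd J' i := by
    intro k
    induction k with
    | zero => rw [hdiff 0]; simp
    | succ k ih =>
      rw [hdiff (k + 1), if_neg (Nat.succ_ne_zero k), Nat.add_sub_cancel, ih,
        Finset.sum_range_succ _ (k + 1)]
  refine ⟨fun r => ?_, ?_⟩
  · obtain ⟨Δ, h5, h6⟩ := fam he r (hd J' r) J' h1 h2 rfl
    exact ⟨_, _, Δ, h5, fun i => by rw [← h6 i]; exact hdiff _⟩
  rintro D ⟨N₀, hN₀⟩ m hm
  have hpos : ∀ k ≤ m + 1, hd J' k ≠ 0 := by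
    intro k hk h0
    have h5 : ∀ j, k ≤ j → hd J' j = 0 := by
      intro j hj
      obtain ⟨a, rfl⟩ := Nat.exists_eq_add_of_le' hj
      exact hd_low_zero h0 a
    have h6 : ∀ j, m ≤ j → h j = h m := by
      intro j hj
      induction j, hj using Nat.le_induction with
      | base => rfl
      | succ j hj ih =>
        rw [hdiff (j + 1), if_neg (Nat.succ_ne_zero j), Nat.add_sub_cancel, ih,
          h5 (j + 1) (by omega), add_zero]
    have h7 := hN₀ (max N₀ m) (le_max_left _ _)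
    rw [h6 _ (le_max_right _ _)] at h7
    omega
  set M := max N₀ (NW e c) + 1 with hM
  have hD : D = ∑ n ∈ Finset.range (e * M), hd J' n := by
    have h5 : 1 ≤ e * M := Nat.mul_pos he (by omega)
    have h6 := hN₀ (e * M - 1) (by
      have : M ≤ e * M := Nat.le_mul_of_pos_left M he
      have := le_max_left N₀ (NW e c)
      show N₀ ≤ _
      omega)
    rw [← h6, hsum, Nat.sub_add_cancel h5]
  rw [hD, sum_blocks]
  refine (Finset.sum_le_sum fun r hr => ?_).trans
    (Finset.sum_le_sum_of_subset (Finset.filter_subset (fun r => r ≤ m + 1) (Finset.range e)))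
  rw [Finset.mem_filter] at hr
  obtain ⟨Δ, h5, h6⟩ := fam he r (hd J' r) J' h1 h2 rfl
  simp only [h6]
  refine two_pow_le Δ h5 ?_ ?_
  · have := le_max_right N₀ (NW e c)
    omega
  · rw [← h6]
    apply hpos
    have := Nat.mul_div_le (m + 1 - r) e
    omega

end Pool.Agent.EGHV27
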